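import Pool.Agent.H548E.Main

set_option autoImplicit false

/-!
# Kernelization of edge editing for two forbidden graphs: a counterexample

The definitions (`Family`, `FreeOf`, `Editable`, `code`, `IsKernel`, `HasPolyKernel`, `C4`,
`TwoK2`) are at the beginning of `Pool/Agent/H548E/Defs.lean`; `CoNPSubsetNPPoly` is defined in
`Pool/Agent/H671R2/CK/Defs.lean`, polynomial time and the coding `bits` in
`Pool/Agent/NPC/Defs.lean`, the adjacency matrix in `Pool/Agent/H671R2/ZDefs.lean`.
-/

namespace Pool.Agent.Results.MP_2df4ce_lc.TwoForbidden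

open Pool.Agent.H548E Pool.Agent.NPC Pool.Agent.CK

/-- Unless `coNP ⊆ NP/poly`, the `C_4`-free and the `2K_2`-free edge editing problems have no
polynomial kernel, while the `{C_4, 2K_2}`-free edge editing problem has one. -/
theorem result :
    (¬ CoNPSubsetNPPoly → ¬ HasPolyKernel [⟨4, C4⟩] ∧ ¬ HasPolyKernel [⟨4, TwoK2⟩]) ∧
      HasPolyKernel [⟨4, C4⟩, ⟨4, TwoK2⟩] := by
  have h1 : HasPolyCompression [⟨4, C4⟩] → CoNPSubsetNPPoly := coNP_of_compression
  have h2 : HasPolyCompression [⟨4, TwoK2⟩] → CoNPSubsetNPPoly := fun h =>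
    coNP_of_compression (compression_compl h)
  exact ⟨fun h => ⟨fun h' => h (h1 (compression_of_kernel _ h')),
    fun h' => h (h2 (compression_of_kernel _ h'))⟩, hasPolyKernel_both⟩

end Pool.Agent.Results.MP_2df4ce_lc.TwoForbidden
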